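import Mathlib

/-!
# Sowing (MP_58e104_co): definitions

Positions of the partizan game Sowing, the small Conway games used as values,
and equality of values (second player wins the difference).
-/

namespace SowingH27

/-- A loop-free partizan ruleset, given by its set of positions and the two move relations. -/
structure Arena (α : Type) where
  /-- `L x y`: Left can move from `x` to `y`. -/
  L : α → α → Prop
  /-- `R x y`: Right can move from `x` to `y`. -/
  R : α → α → Prop

/-- The difference `x - y` of a position `x` of `A` and a position `y` of `B`: a move is a move in `x`,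
or a move of the opponent in `y`. -/
def Arena.sub {α β : Type} (A : Arena α) (B : Arena β) : Arena (α × β) where
  L u v := (A.L u.1 v.1 ∧ v.2 = u.2) ∨ (v.1 = u.1 ∧ B.R u.2 v.2)
  R u v := (A.R u.1 v.1 ∧ v.2 = u.2) ∨ (v.1 = u.1 ∧ B.L u.2 v.2)

/-- Right moves first and Left wins, Left making at most `n` moves
(a player who cannot move loses). -/
def Arena.LeftSecond {α : Type} (A : Arena α) : ℕ → α → Prop
  | 0, x => ∀ y, ¬ A.R x y
  | n + 1, x => ∀ y, A.R x y → ∃ z, A.L y z ∧ A.LeftSecond n z

/-- Left moves first and Right wins, Right making at most `n` moves. -/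
def Arena.RightSecond {α : Type} (A : Arena α) : ℕ → α → Prop
  | 0, x => ∀ y, ¬ A.L x y
  | n + 1, x => ∀ y, A.L x y → ∃ z, A.R y z ∧ A.RightSecond n z

/-- Conway's equality `x = y`: the player who moves second wins `x - y`. -/
def Equal {α β : Type} (A : Arena α) (x : α) (B : Arena β) (y : β) : Prop :=
  (∃ n, (A.sub B).LeftSecond n (x, y)) ∧ (∃ n, (A.sub B).RightSecond n (x, y))

/-- Left's sowing: empty pot `i`, one seed into each of the next `p i` pots to the right. -/
def sowRight (p : ℤ → ℕ) (i : ℤ) : ℤ → ℕ :=
  fun j => if j = i then 0 else if i < j ∧ j ≤ i + p i then p j + 1 else p j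

/-- Right's sowing: empty pot `i`, one seed into each of the next `p i` pots to the left. -/
def sowLeft (p : ℤ → ℕ) (i : ℤ) : ℤ → ℕ :=
  fun j => if j = i then 0 else if i - p i ≤ j ∧ j < i then p j + 1 else p j

/-- The game Sowing: a nonempty pot is sown, and the pot where the last seed lands
was nonempty before the move. -/
def sowing : Arena (ℤ → ℕ) where
  L p q := ∃ i : ℤ, p i ≠ 0 ∧ p (i + p i) ≠ 0 ∧ q = sowRight p i
  R p q := ∃ i : ℤ, p i ≠ 0 ∧ p (i - p i) ≠ 0 ∧ q = sowLeft p i

/-- Short partizan games: `none = { | }`, `addLeft H G` is `G` with one more Left option `H`,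
`addRight H G` is `G` with one more Right option `H`. -/
inductive Game : Type
  | none : Game
  | addLeft : Game → Game → Game
  | addRight : Game → Game → Game

/-- Left options. -/
def Game.left : Game → List Game
  | .none => []
  | .addLeft H G => H :: G.left
  | .addRight _ G => G.left

/-- Right options. -/
def Game.right : Game → List Game
  | .none => []
  | .addLeft _ G => G.right
  | .addRight H G => H :: G.right

/-- The game `{l | r}` with the given lists of options. -/
def Game.mk (l r : List Game) : Game := l.foldr .addLeft (r.foldr .addRight .none)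

@[simp] theorem Game.left_mk (l r : List Game) : (Game.mk l r).left = l := by
  have h : ∀ r : List Game, (r.foldr Game.addRight Game.none).left = [] := by
    intro r
    induction r with
    | nil => rfl
    | cons a r ih => simpa [Game.left] using ih
  induction l with
  | nil => exact h r
  | cons a l ih => exact congrArg (a :: ·) ih

@[simp] theorem Game.right_mk (l r : List Game) : (Game.mk l r).right = r := by
  have h : ∀ r : List Game, (r.foldr Game.addRight Game.none).right = r := by
    intro r
    induction r with
    | nil => rfl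
    | cons a r ih => exact congrArg (a :: ·) ih
  induction l with
  | nil => exact h r
  | cons a l ih => exact ih

/-- Disjunctive sums of short games, the summands listed: a move replaces one summand by one
of its options. -/
def games : Arena (List Game) where
  L x y := ∃ (a : List Game) (G : Game) (b : List Game) (H : Game),
    x = a ++ G :: b ∧ H ∈ G.left ∧ y = a ++ H :: b
  R x y := ∃ (a : List Game) (G : Game) (b : List Game) (H : Game),
    x = a ++ G :: b ∧ H ∈ G.right ∧ y = a ++ H :: b

/-- `0 = { | }` -/
def zero : Game := .mk [] []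

/-- `* = {0 | 0}` -/
def star : Game := .mk [zero] [zero]

/-- `up = {0 | *}` -/
def up : Game := .mk [zero] [star]

/-- `-n = { | -(n-1)}` -/
def negNat : ℕ → Game
  | 0 => zero
  | n + 1 => .mk [] [negNat n]

/-- tiny-`n`, `{0 || 0 | -n}` -/
def tiny (n : ℕ) : Game := .mk [zero] [.mk [zero] [negNat n]]

/-- the list `*(n-1), ..., *1, *0` -/
def nims : ℕ → List Game
  | 0 => []
  | n + 1 => .mk (nims n) (nims n) :: nims n

/-- `*n = {*0, ..., *(n-1) | *0, ..., *(n-1)}` -/
def nim (n : ℕ) : Game := .mk (nims n) (nims n)

/-- The Sowing position `p` (finitely many nonempty pots) has the value of the sum of the games `Gs`. -/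
def HasValue (p : ℤ → ℕ) (Gs : List Game) : Prop :=
  (Function.support p).Finite ∧ Equal sowing p games Gs

/-- The position written as a digit string, first pot at `0`. -/
def ofList (l : List ℕ) : ℤ → ℕ := fun i => if 0 ≤ i then l.getD i.toNat 0 else 0

/-! ## Pieces -/

/-- SUM: values of Sowing positions are closed under sums. -/
def S_SUM : Prop := ∀ (p q : ℤ → ℕ) (Gs Hs : List Game), HasValue p Gs → HasValue q Hs →
  ∃ r, HasValue r (Gs ++ Hs)

/-- TRANS: equality is transitive. -/
def S_TRANS : Prop := ∀ (p : ℤ → ℕ) (Gs Hs : List Game), HasValue p Gs →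
  Equal games Gs games Hs → HasValue p Hs

/-- UP: `2202 = up`. -/
def S_UP : Prop := HasValue (ofList [2, 2, 0, 2]) [up]

/-- TINY1: `42011` is tiny-one. -/
def S_TINY1 : Prop := HasValue (ofList [4, 2, 0, 1, 1]) [tiny 1]

/-- NIM1 -/
def S_NIM1 : Prop := HasValue (ofList [1, 1]) [nim 1]

/-- NIM2: `31F13 = *2` -/
def S_NIM2 : Prop := HasValue (ofList [3, 1, 9, 1, 3]) [nim 2]

/-- NIM4 -/
def S_NIM4 : Prop := HasValue (ofList (List.replicate 15 99 ++
  [13, 99, 3, 99, 99, 99, 2, 99, 99, 99, 3, 99, 13] ++ List.replicate 15 99)) [nim 4]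

/-- NIMADD: nim sums. -/
def S_NIMADD : Prop := Equal games [nim 2, nim 1] games [nim 3] ∧
  Equal games [nim 4, nim 1] games [nim 5] ∧ Equal games [nim 4, nim 2] games [nim 6] ∧
  Equal games [nim 4, nim 3] games [nim 7]

/-- The position `(10)^n 1 F F 3` with `F = 2 n + 9`. -/
def tinyRow (n : ℕ) : ℤ → ℕ := fun i =>
  if i < 0 then 0 else if i ≤ 2 * n then (if i % 2 = 0 then 1 else 0)
  else if i ≤ 2 * n + 2 then 2 * n + 9 else if i = 2 * n + 3 then 3 else 0

/-- FAM -/
def S_FAM : Prop := ∀ n : ℕ, 2 ≤ n → HasValue (tinyRow n) [tiny n]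

end SowingH27
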