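import Pool.Agent.E8helper27.Sow.Defs

/-!
# Sowing: the family (10)^n 1 F F 3 has value tiny-n for n at least 2
-/

namespace SowingH27

namespace Fam

/-- `p` agrees with `s` outside the two full pots. -/
def Ty (n : ℕ) (s p : ℤ → ℕ) : Prop :=
  (∀ j : ℤ, j ≠ 2 * n + 1 → j ≠ 2 * n + 2 → p j = s j) ∧
    2 * n + 9 ≤ p (2 * n + 1) ∧ 2 * n + 9 ≤ p (2 * n + 2)

/-- start row -/
def sG (n : ℕ) : ℤ → ℕ := fun i =>
  if i < 0 then 0 else if i ≤ 2 * n then (if i % 2 = 0 then 1 else 0)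
  else if i = 2 * n + 3 then 3 else 0

/-- isolated ones, last pot `e` -/
def sA (n e : ℕ) : ℤ → ℕ := fun i =>
  if i < 0 then 0 else if i < 2 * n then (if i % 2 = 0 then 1 else 0)
  else if i = 2 * n + 3 then e else 0

/-- the hot row -/
def sH (n : ℕ) : ℤ → ℕ := fun i =>
  if i < 0 then 0 else if i < 2 * n then (if i % 2 = 0 then 1 else 0)
  else if i = 2 * n then 2 else 0

/-- the running chain -/
def sS (n k : ℕ) : ℤ → ℕ := fun i =>
  if i < 0 then 0 else if i < 2 * k then (if i % 2 = 0 then 1 else 0)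
  else if i = 2 * k then 2 else if i ≤ 2 * n - 1 then (if i % 2 = 1 then 1 else 0) else 0

/-- the stopped chain -/
def sT (n k : ℕ) : ℤ → ℕ := fun i =>
  if i < 0 then 0 else if i < 2 * k then (if i % 2 = 0 then 1 else 0)
  else if i = 2 * k then 3 else if i ≤ 2 * k + 2 then 0
  else if i ≤ 2 * n - 1 then (if i % 2 = 1 then 1 else 0) else 0

/-- after the answer by the three -/
def sU (n : ℕ) : ℤ → ℕ := fun i =>
  if i < 1 then 0 else if i < 3 then 1 else if i = 3 then 2 else if i = 4 then 0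
  else if i ≤ 2 * n - 1 then (if i % 2 = 1 then 1 else 0) else 0

/-- final row -/
def sW (n : ℕ) : ℤ → ℕ := fun i =>
  if i < 1 then 0 else if i < 3 then 2 else if i ≤ 4 then 0
  else if i ≤ 2 * n - 1 then (if i % 2 = 1 then 1 else 0) else 0

theorem ty_sowRight {n : ℕ} {s p : ℤ → ℕ} (h : Ty n s p) {i : ℤ} (h1 : i ≠ 2 * n + 1)
    (h2 : i ≠ 2 * n + 2) {c : ℕ} (hc : p i = c) (s' : ℤ → ℕ)
    (hs : ∀ j : ℤ, j ≠ 2 * n + 1 → j ≠ 2 * n + 2 →
      s' j = if j = i then 0 else if i < j ∧ j ≤ i + c then s j + 1 else s j) :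
    Ty n s' (sowRight p i) := by
  refine ⟨fun j hj1 hj2 => ?_, ?_, ?_⟩
  · rw [hs j hj1 hj2]
    simp only [sowRight, hc, h.1 j hj1 hj2]
  · have := h.2.1
    simp only [sowRight]
    split_ifs <;> omega
  · have := h.2.2
    simp only [sowRight]
    split_ifs <;> omega

theorem ty_sowLeft {n : ℕ} {s p : ℤ → ℕ} (h : Ty n s p) {i : ℤ} (h1 : i ≠ 2 * n + 1)
    (h2 : i ≠ 2 * n + 2) {c : ℕ} (hc : p i = c) (s' : ℤ → ℕ)
    (hs : ∀ j : ℤ, j ≠ 2 * n + 1 → j ≠ 2 * n + 2 →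
      s' j = if j = i then 0 else if i - c ≤ j ∧ j < i then s j + 1 else s j) :
    Ty n s' (sowLeft p i) := by
  refine ⟨fun j hj1 hj2 => ?_, ?_, ?_⟩
  · rw [hs j hj1 hj2]
    simp only [sowLeft, hc, h.1 j hj1 hj2]
  · have := h.2.1
    simp only [sowLeft]
    split_ifs <;> omega
  · have := h.2.2
    simp only [sowLeft]
    split_ifs <;> omega

/-- a row of some type with everything outside `[0, 2n+3]` empty: a full pot never moves. -/
theorem full_L {n : ℕ} {s p : ℤ → ℕ} (h : Ty n s p) (hs : ∀ j : ℤ, 2 * n + 3 < j → s j = 0)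
    {i : ℤ} (hi : p (i + p i) ≠ 0) : i ≠ 2 * n + 1 ∧ i ≠ 2 * n + 2 := by
  constructor
  · rintro rfl
    have h1 := h.2.1
    apply hi
    rw [h.1 _ (by omega) (by omega)]
    exact hs _ (by omega)
  · rintro rfl
    have h1 := h.2.2
    apply hi
    rw [h.1 _ (by omega) (by omega)]
    exact hs _ (by omega)

theorem full_R {n : ℕ} {s p : ℤ → ℕ} (h : Ty n s p) (hs : ∀ j : ℤ, j < 0 → s j = 0)
    {i : ℤ} (hi : p (i - p i) ≠ 0) : i ≠ 2 * n + 1 ∧ i ≠ 2 * n + 2 := by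
  constructor
  · rintro rfl
    have h1 := h.2.1
    apply hi
    rw [h.1 _ (by omega) (by omega)]
    exact hs _ (by omega)
  · rintro rfl
    have h1 := h.2.2
    apply hi
    rw [h.1 _ (by omega) (by omega)]
    exact hs _ (by omega)

/-- value at a non-full pot equal to `c` -/
theorem val {n : ℕ} {s p : ℤ → ℕ} (h : Ty n s p) {j : ℤ} (h1 : j ≠ 2 * n + 1)
    (h2 : j ≠ 2 * n + 2) {c : ℕ} (hc : s j = c) : p j = c := by
  rw [h.1 j h1 h2, hc]

theorem pos {n : ℕ} {s p : ℤ → ℕ} (h : Ty n s p) : p (2 * n + 1) ≠ 0 ∧ p (2 * n + 2) ≠ 0 := by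
  have h1 := h.2.1
  have h2 := h.2.2
  constructor <;> omega

/-! ### Rows without moves -/

theorem A_L {n e : ℕ} (he : e = 0 ∨ e = 3) {p q : ℤ → ℕ} (h : Ty n (sA n e) p) :
    ¬ sowing.L p q := by
  rintro ⟨i, hi, hl, -⟩
  obtain ⟨h1, h2⟩ := full_L h (by intro j hj; simp only [sA]; split_ifs <;> omega) hl
  have e1 := h.1 i h1 h2
  by_cases hc : i = 2 * n + 3
  · have : p i = e := by rw [e1]; simp only [sA]; split_ifs <;> omega
    rcases he with rfl | rfl
    · exact hi this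
    · apply hl
      rw [this]
      apply val h (by omega) (by omega)
      simp only [sA]; split_ifs <;> omega
  · have hp : p i = 1 ∧ 0 ≤ i ∧ i < 2 * n ∧ i % 2 = 0 := by
      rw [e1] at hi ⊢
      simp only [sA] at hi ⊢
      split_ifs at hi ⊢ <;> omega
    apply hl
    rw [hp.1]
    apply val h (by omega) (by omega)
    simp only [sA]; split_ifs <;> omega

theorem A_R {n e : ℕ} (he : e = 0 ∨ e = 3) {p q : ℤ → ℕ} (h : Ty n (sA n e) p) :
    ¬ sowing.R p q := by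
  rintro ⟨i, hi, hl, -⟩
  obtain ⟨h1, h2⟩ := full_R h (by intro j hj; simp only [sA]; split_ifs <;> omega) hl
  have e1 := h.1 i h1 h2
  by_cases hc : i = 2 * n + 3
  · have : p i = e := by rw [e1]; simp only [sA]; split_ifs <;> omega
    rcases he with rfl | rfl
    · exact hi this
    · apply hl
      rw [this]
      apply val h (by omega) (by omega)
      simp only [sA]; split_ifs <;> omega
  · have hp : p i = 1 ∧ 0 ≤ i ∧ i < 2 * n ∧ i % 2 = 0 := by
      rw [e1] at hi ⊢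
      simp only [sA] at hi ⊢
      split_ifs at hi ⊢ <;> omega
    apply hl
    rw [hp.1]
    apply val h (by omega) (by omega)
    simp only [sA]; split_ifs <;> omega

/-! ### Start row -/

theorem G_L {n : ℕ} {p q : ℤ → ℕ} (h : Ty n (sG n) p) (hq : sowing.L p q) :
    Ty n (sA n 3) q := by
  obtain ⟨i, hi, hl, rfl⟩ := hq
  obtain ⟨h1, h2⟩ := full_L h (by intro j hj; simp only [sG]; split_ifs <;> omega) hl
  have e1 := h.1 i h1 h2
  have hp : (p i = 3 ∧ i = 2 * n + 3) ∨ (p i = 1 ∧ 0 ≤ i ∧ i ≤ 2 * n ∧ i % 2 = 0) := by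
    rw [e1] at hi ⊢
    simp only [sG] at hi ⊢
    split_ifs at hi ⊢ <;> omega
  rcases hp with ⟨hp, hi3⟩ | ⟨hp, hi0, hi1, hi2⟩
  · exfalso
    apply hl
    rw [hp]
    apply val h (by omega) (by omega)
    simp only [sG]; split_ifs <;> omega
  · by_cases hc : i = 2 * n
    · refine ty_sowRight h h1 h2 hp _ ?_
      intro j hj1 hj2
      simp only [sA, sG]
      split_ifs <;> omega
    · exfalso
      apply hl
      rw [hp]
      apply val h (by omega) (by omega)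
      simp only [sG]; split_ifs <;> omega

theorem G_L_ex {n : ℕ} {p : ℤ → ℕ} (h : Ty n (sG n) p) :
    ∃ q, sowing.L p q ∧ Ty n (sA n 3) q := by
  have hp : p (2 * n) = 1 := by
    apply val h (by omega) (by omega)
    simp only [sG]; split_ifs <;> omega
  have hm : sowing.L p (sowRight p (2 * n)) := by
    refine ⟨2 * n, by omega, ?_, rfl⟩
    rw [hp]
    exact (pos h).1
  exact ⟨_, hm, G_L h hm⟩

theorem G_R {n : ℕ} {p q : ℤ → ℕ} (h : Ty n (sG n) p) (hq : sowing.R p q) :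
    Ty n (sH n) q := by
  obtain ⟨i, hi, hl, rfl⟩ := hq
  obtain ⟨h1, h2⟩ := full_R h (by intro j hj; simp only [sG]; split_ifs <;> omega) hl
  have e1 := h.1 i h1 h2
  have hp : (p i = 3 ∧ i = 2 * n + 3) ∨ (p i = 1 ∧ 0 ≤ i ∧ i ≤ 2 * n ∧ i % 2 = 0) := by
    rw [e1] at hi ⊢
    simp only [sG] at hi ⊢
    split_ifs at hi ⊢ <;> omega
  rcases hp with ⟨hp, hi3⟩ | ⟨hp, hi0, hi1, hi2⟩
  · refine ty_sowLeft h h1 h2 hp _ ?_
    intro j hj1 hj2
    simp only [sH, sG]
    split_ifs <;> omega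
  · exfalso
    apply hl
    rw [hp]
    apply val h (by omega) (by omega)
    simp only [sG]; split_ifs <;> omega

theorem G_R_ex {n : ℕ} {p : ℤ → ℕ} (h : Ty n (sG n) p) :
    ∃ q, sowing.R p q ∧ Ty n (sH n) q := by
  have hp : p (2 * n + 3) = 3 := by
    apply val h (by omega) (by omega)
    simp only [sG]; split_ifs <;> omega
  have hm : sowing.R p (sowLeft p (2 * n + 3)) := by
    refine ⟨2 * n + 3, by omega, ?_, rfl⟩
    rw [hp]
    have : p (2 * n + 3 - (3 : ℕ)) = 1 := by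
      apply val h (by omega) (by omega)
      simp only [sG]; split_ifs <;> omega
    omega
  exact ⟨_, hm, G_R h hm⟩

/-! ### Hot row -/

theorem H_L {n : ℕ} {p q : ℤ → ℕ} (h : Ty n (sH n) p) (hq : sowing.L p q) :
    Ty n (sA n 0) q := by
  obtain ⟨i, hi, hl, rfl⟩ := hq
  obtain ⟨h1, h2⟩ := full_L h (by intro j hj; simp only [sH]; split_ifs <;> omega) hl
  have e1 := h.1 i h1 h2
  have hp : (p i = 2 ∧ i = 2 * n) ∨ (p i = 1 ∧ 0 ≤ i ∧ i < 2 * n ∧ i % 2 = 0) := by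
    rw [e1] at hi ⊢
    simp only [sH] at hi ⊢
    split_ifs at hi ⊢ <;> omega
  rcases hp with ⟨hp, hi3⟩ | ⟨hp, hi0, hi1, hi2⟩
  · refine ty_sowRight h h1 h2 hp _ ?_
    intro j hj1 hj2
    simp only [sA, sH]
    split_ifs <;> omega
  · exfalso
    apply hl
    rw [hp]
    apply val h (by omega) (by omega)
    simp only [sH]; split_ifs <;> omega

theorem H_L_ex {n : ℕ} {p : ℤ → ℕ} (h : Ty n (sH n) p) :
    ∃ q, sowing.L p q ∧ Ty n (sA n 0) q := by
  have hp : p (2 * n) = 2 := by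
    apply val h (by omega) (by omega)
    simp only [sH]; split_ifs <;> omega
  have hm : sowing.L p (sowRight p (2 * n)) := by
    refine ⟨2 * n, by omega, ?_, rfl⟩
    rw [hp]
    exact (pos h).2
  exact ⟨_, hm, H_L h hm⟩

theorem H_R {n : ℕ} (hn : 1 ≤ n) {p q : ℤ → ℕ} (h : Ty n (sH n) p) (hq : sowing.R p q) :
    Ty n (sS n (n - 1)) q := by
  obtain ⟨i, hi, hl, rfl⟩ := hq
  obtain ⟨h1, h2⟩ := full_R h (by intro j hj; simp only [sH]; split_ifs <;> omega) hl
  have e1 := h.1 i h1 h2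
  have hp : (p i = 2 ∧ i = 2 * n) ∨ (p i = 1 ∧ 0 ≤ i ∧ i < 2 * n ∧ i % 2 = 0) := by
    rw [e1] at hi ⊢
    simp only [sH] at hi ⊢
    split_ifs at hi ⊢ <;> omega
  rcases hp with ⟨hp, hi3⟩ | ⟨hp, hi0, hi1, hi2⟩
  · refine ty_sowLeft h h1 h2 hp _ ?_
    intro j hj1 hj2
    simp only [sS, sH]
    split_ifs <;> omega
  · exfalso
    apply hl
    rw [hp]
    apply val h (by omega) (by omega)
    simp only [sH]; split_ifs <;> omega

theorem H_R_ex {n : ℕ} (hn : 1 ≤ n) {p : ℤ → ℕ} (h : Ty n (sH n) p) :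
    ∃ q, sowing.R p q ∧ Ty n (sS n (n - 1)) q := by
  have hp : p (2 * n) = 2 := by
    apply val h (by omega) (by omega)
    simp only [sH]; split_ifs <;> omega
  have hm : sowing.R p (sowLeft p (2 * n)) := by
    refine ⟨2 * n, by omega, ?_, rfl⟩
    rw [hp]
    have : p (2 * n - (2 : ℕ)) = 1 := by
      apply val h (by omega) (by omega)
      simp only [sH]; split_ifs <;> omega
    omega
  exact ⟨_, hm, H_R hn h hm⟩

/-! ### Running chain -/

theorem S_cases {n k : ℕ} (hk : k < n) {i : ℤ} (hi : sS n k i ≠ 0) :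
    (sS n k i = 2 ∧ i = 2 * k) ∨ (sS n k i = 1 ∧ 0 ≤ i ∧ i < 2 * k ∧ i % 2 = 0) ∨
      (sS n k i = 1 ∧ 2 * k < i ∧ i ≤ 2 * n - 1 ∧ i % 2 = 1) := by
  simp only [sS] at hi ⊢
  split_ifs at hi ⊢ <;> omega

theorem S_L {n k : ℕ} (hk : k < n) {p q : ℤ → ℕ} (h : Ty n (sS n k) p) : ¬ sowing.L p q := by
  rintro ⟨i, hi, hl, -⟩
  obtain ⟨h1, h2⟩ := full_L h (by intro j hj; simp only [sS]; split_ifs <;> omega) hl
  have e1 := h.1 i h1 h2
  apply hl
  rcases S_cases hk (e1 ▸ hi) with ⟨hp, hi3⟩ | ⟨hp, hi0, hi1, hi2⟩ | ⟨hp, hi0, hi1, hi2⟩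
  all_goals
    rw [e1, hp]
    apply val h (by omega) (by omega)
    simp only [sS]; split_ifs <;> omega

theorem S_R {n k : ℕ} (hk : k < n) {p q : ℤ → ℕ} (h : Ty n (sS n k) p) (hq : sowing.R p q) :
    (1 ≤ k ∧ Ty n (sS n (k - 1)) q) ∨ Ty n (sT n k) q := by
  obtain ⟨i, hi, hl, rfl⟩ := hq
  obtain ⟨h1, h2⟩ := full_R h (by intro j hj; simp only [sS]; split_ifs <;> omega) hl
  have e1 := h.1 i h1 h2
  rcases S_cases hk (e1 ▸ hi) with ⟨hp, hi3⟩ | ⟨hp, hi0, hi1, hi2⟩ | ⟨hp, hi0, hi1, hi2⟩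
  · rw [← e1] at hp
    by_cases hk1 : 1 ≤ k
    · left
      refine ⟨hk1, ty_sowLeft h h1 h2 hp _ ?_⟩
      intro j hj1 hj2
      simp only [sS]
      split_ifs <;> omega
    · exfalso
      apply hl
      rw [hp]
      apply val h (by omega) (by omega)
      simp only [sS]; split_ifs <;> omega
  · exfalso
    apply hl
    rw [e1, hp]
    apply val h (by omega) (by omega)
    simp only [sS]; split_ifs <;> omega
  · rw [← e1] at hp
    by_cases hk1 : i = 2 * k + 1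
    · right
      refine ty_sowLeft h h1 h2 hp _ ?_
      intro j hj1 hj2
      simp only [sS, sT]
      split_ifs <;> omega
    · exfalso
      apply hl
      rw [hp]
      apply val h (by omega) (by omega)
      simp only [sS]; split_ifs <;> omega

theorem S_R_ex {n k : ℕ} (hk : k < n) (hk1 : 1 ≤ k) {p : ℤ → ℕ} (h : Ty n (sS n k) p) :
    ∃ q, sowing.R p q ∧ Ty n (sS n (k - 1)) q := by
  have hp : p (2 * k) = 2 := by
    apply val h (by omega) (by omega)
    simp only [sS]; split_ifs <;> omega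
  refine ⟨sowLeft p (2 * k), ⟨2 * k, by omega, ?_, rfl⟩, ?_⟩
  · rw [hp]
    have : p (2 * k - (2 : ℕ)) = 1 := by
      apply val h (by omega) (by omega)
      simp only [sS]; split_ifs <;> omega
    omega
  · refine ty_sowLeft h (by omega) (by omega) hp _ ?_
    intro j hj1 hj2
    simp only [sS]
    split_ifs <;> omega

theorem S_R_ex0 {n : ℕ} (hn : 1 ≤ n) {p : ℤ → ℕ} (h : Ty n (sS n 0) p) :
    ∃ q, sowing.R p q ∧ Ty n (sT n 0) q := by
  have hp : p 1 = 1 := by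
    apply val h (by omega) (by omega)
    simp only [sS]; split_ifs <;> omega
  refine ⟨sowLeft p 1, ⟨1, by omega, ?_, rfl⟩, ?_⟩
  · rw [hp]
    have : p (1 - (1 : ℕ)) = 2 := by
      apply val h (by omega) (by omega)
      simp only [sS]; split_ifs <;> omega
    omega
  · refine ty_sowLeft h (by omega) (by omega) hp _ ?_
    intro j hj1 hj2
    simp only [sS, sT]
    split_ifs <;> omega

/-! ### Stopped chain -/

theorem T_cases {n k : ℕ} {i : ℤ} (hi : sT n k i ≠ 0) :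
    (sT n k i = 3 ∧ i = 2 * k) ∨ (sT n k i = 1 ∧ 0 ≤ i ∧ i < 2 * k ∧ i % 2 = 0) ∨
      (sT n k i = 1 ∧ 2 * k + 2 < i ∧ i ≤ 2 * n - 1 ∧ i % 2 = 1) := by
  simp only [sT] at hi ⊢
  split_ifs at hi ⊢ <;> omega

theorem T_R {n k : ℕ} (hk : k < n) {p q : ℤ → ℕ} (h : Ty n (sT n k) p) : ¬ sowing.R p q := by
  rintro ⟨i, hi, hl, -⟩
  obtain ⟨h1, h2⟩ := full_R h (by intro j hj; simp only [sT]; split_ifs <;> omega) hl
  have e1 := h.1 i h1 h2
  apply hl
  rcases T_cases (e1 ▸ hi) with ⟨hp, hi3⟩ | ⟨hp, hi0, hi1, hi2⟩ | ⟨hp, hi0, hi1, hi2⟩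
  all_goals
    rw [e1, hp]
    apply val h (by omega) (by omega)
    simp only [sT]; split_ifs <;> omega

theorem T_L {n : ℕ} (hn : 2 ≤ n) {p q : ℤ → ℕ} (h : Ty n (sT n 0) p) (hq : sowing.L p q) :
    Ty n (sU n) q := by
  obtain ⟨i, hi, hl, rfl⟩ := hq
  obtain ⟨h1, h2⟩ := full_L h (by intro j hj; simp only [sT]; split_ifs <;> omega) hl
  have e1 := h.1 i h1 h2
  rcases T_cases (e1 ▸ hi) with ⟨hp, hi3⟩ | ⟨hp, hi0, hi1, hi2⟩ | ⟨hp, hi0, hi1, hi2⟩
  · rw [← e1] at hp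
    refine ty_sowRight h h1 h2 hp _ ?_
    intro j hj1 hj2
    simp only [sT, sU]
    split_ifs <;> omega
  · exfalso; omega
  · exfalso
    apply hl
    rw [e1, hp]
    apply val h (by omega) (by omega)
    simp only [sT]; split_ifs <;> omega

theorem U_R_ex {n : ℕ} (hn : 2 ≤ n) {p : ℤ → ℕ} (h : Ty n (sU n) p) :
    ∃ q, sowing.R p q ∧ Ty n (sW n) q := by
  have hp : p 3 = 2 := by
    apply val h (by omega) (by omega)
    simp only [sU]; split_ifs <;> omega
  refine ⟨sowLeft p 3, ⟨3, by omega, ?_, rfl⟩, ?_⟩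
  · rw [hp]
    have : p (3 - (2 : ℕ)) = 1 := by
      apply val h (by omega) (by omega)
      simp only [sU]; split_ifs <;> omega
    omega
  · refine ty_sowLeft h (by omega) (by omega) hp _ ?_
    intro j hj1 hj2
    simp only [sU, sW]
    split_ifs <;> omega

theorem W_L {n : ℕ} (hn : 2 ≤ n) {p q : ℤ → ℕ} (h : Ty n (sW n) p) : ¬ sowing.L p q := by
  rintro ⟨i, hi, hl, -⟩
  obtain ⟨h1, h2⟩ := full_L h (by intro j hj; simp only [sW]; split_ifs <;> omega) hl
  have e1 := h.1 i h1 h2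
  have hc : (sW n i = 2 ∧ 1 ≤ i ∧ i < 3) ∨ (sW n i = 1 ∧ 5 ≤ i ∧ i ≤ 2 * n - 1 ∧ i % 2 = 1) := by
    have hi' := e1 ▸ hi
    simp only [sW] at hi' ⊢
    split_ifs at hi' ⊢ <;> omega
  apply hl
  rcases hc with ⟨hp, hi0, hi1⟩ | ⟨hp, hi0, hi1, hi2⟩
  all_goals
    rw [e1, hp]
    apply val h (by omega) (by omega)
    simp only [sW]; split_ifs <;> omega

/-! ### The compound game -/

theorem games_L {G : Game} {y : List Game} (h : games.L [G] y) : ∃ H ∈ G.left, y = [H] := by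
  obtain ⟨a, G', b, H, h1, h2, h3⟩ := h
  rcases a with _ | ⟨x, a⟩
  · simp only [List.nil_append, List.cons.injEq] at h1
    obtain ⟨rfl, rfl⟩ := h1
    exact ⟨H, h2, by simpa using h3⟩
  · simp at h1

theorem games_R {G : Game} {y : List Game} (h : games.R [G] y) : ∃ H ∈ G.right, y = [H] := by
  obtain ⟨a, G', b, H, h1, h2, h3⟩ := h
  rcases a with _ | ⟨x, a⟩
  · simp only [List.nil_append, List.cons.injEq] at h1
    obtain ⟨rfl, rfl⟩ := h1
    exact ⟨H, h2, by simpa using h3⟩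
  · simp at h1

theorem games_L_mk {G H : Game} (h : H ∈ G.left) : games.L [G] [H] := ⟨[], G, [], H, rfl, h, rfl⟩

theorem games_R_mk {G H : Game} (h : H ∈ G.right) : games.R [G] [H] := ⟨[], G, [], H, rfl, h, rfl⟩

theorem ls_of_none {p : ℤ → ℕ} {G : Game} (h1 : ∀ q, ¬ sowing.R p q) (h2 : G.left = []) (m : ℕ) :
    (sowing.sub games).LeftSecond m (p, [G]) := by
  have key : ∀ y, ¬ (sowing.sub games).R (p, [G]) y := by
    rintro y (⟨h, -⟩ | ⟨-, h⟩)
    · exact h1 _ h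
    · obtain ⟨H, hH, -⟩ := games_L h
      rw [h2] at hH
      simp at hH
  cases m with
  | zero => exact key
  | succ m => exact fun y hy => absurd hy (key y)

theorem rs_of_none {p : ℤ → ℕ} {G : Game} (h1 : ∀ q, ¬ sowing.L p q) (h2 : G.right = []) (m : ℕ) :
    (sowing.sub games).RightSecond m (p, [G]) := by
  have key : ∀ y, ¬ (sowing.sub games).L (p, [G]) y := by
    rintro y (⟨h, -⟩ | ⟨-, h⟩)
    · exact h1 _ h
    · obtain ⟨H, hH, -⟩ := games_R h
      rw [h2] at hH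
      simp at hH
  cases m with
  | zero => exact key
  | succ m => exact fun y hy => absurd hy (key y)

theorem negNat_left (m : ℕ) : (negNat m).left = [] := by cases m <;> rfl

theorem S_ls {n : ℕ} (k : ℕ) (hk : k < n) (p : ℤ → ℕ) (h : Ty n (sS n k) p) :
    (sowing.sub games).LeftSecond (k + 1) (p, [negNat (k + 1)]) := by
  induction k generalizing p with
  | zero =>
    rintro ⟨q, y⟩ (⟨hq, hy⟩ | ⟨-, hy⟩)
    · simp only at hq hy
      subst hy
      rcases S_R hk h hq with ⟨h0, -⟩ | hT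
      · omega
      · refine ⟨(q, [negNat 0]), Or.inr ⟨rfl, games_R_mk (by simp [negNat, Game.right])⟩, ?_⟩
        exact ls_of_none (fun q' => T_R hk hT) (negNat_left 0) _
    · obtain ⟨H, hH, -⟩ := games_L hy
      rw [negNat_left] at hH
      simp at hH
  | succ k ih =>
    rintro ⟨q, y⟩ (⟨hq, hy⟩ | ⟨-, hy⟩)
    · simp only at hq hy
      subst hy
      refine ⟨(q, [negNat (k + 1)]), Or.inr ⟨rfl, games_R_mk (by simp [negNat, Game.right])⟩, ?_⟩
      rcases S_R hk h hq with ⟨h0, hS⟩ | hT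
      · exact ih (by omega) q hS
      · exact ls_of_none (fun q' => T_R hk hT) (negNat_left _) _
    · obtain ⟨H, hH, -⟩ := games_L hy
      rw [negNat_left] at hH
      simp at hH

theorem S_rs {n : ℕ} (hn : 2 ≤ n) (k : ℕ) (hk : k < n) (p : ℤ → ℕ) (h : Ty n (sS n k) p) :
    (sowing.sub games).RightSecond (k + 2) (p, [negNat (k + 1)]) := by
  induction k generalizing p with
  | zero =>
    rintro ⟨q, y⟩ (⟨hq, -⟩ | ⟨hq, hy⟩)
    · exact absurd hq (S_L hk h)
    · simp only at hq hy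
      subst hq
      obtain ⟨H, hH, rfl⟩ := games_R hy
      have hH' : H = negNat 0 := by simpa [negNat, Game.right] using hH
      subst hH'
      obtain ⟨q', hq', hT⟩ := S_R_ex0 (by omega) h
      refine ⟨(q', [negNat 0]), Or.inl ⟨hq', rfl⟩, ?_⟩
      rintro ⟨r, z⟩ (⟨hr, hz⟩ | ⟨-, hz⟩)
      · simp only at hr hz
        subst hz
        obtain ⟨r', hr', hW⟩ := U_R_ex hn (T_L hn hT hr)
        exact ⟨(r', [negNat 0]), Or.inl ⟨hr', rfl⟩, rs_of_none (fun _ => W_L hn hW) rfl _⟩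
      · obtain ⟨H, hH, -⟩ := games_R hz
        simp [negNat, zero, Game.right] at hH
  | succ k ih =>
    rintro ⟨q, y⟩ (⟨hq, -⟩ | ⟨hq, hy⟩)
    · exact absurd hq (S_L hk h)
    · simp only at hq hy
      subst hq
      obtain ⟨H, hH, rfl⟩ := games_R hy
      have hH' : H = negNat (k + 1) := by simpa [negNat, Game.right] using hH
      subst hH'
      obtain ⟨q', hq', hS⟩ := S_R_ex hk (by omega) h
      exact ⟨(q', [negNat (k + 1)]), Or.inl ⟨hq', rfl⟩, ih (by omega) q' hS⟩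

theorem H_ls {n : ℕ} (hn : 2 ≤ n) {p : ℤ → ℕ} (h : Ty n (sH n) p) :
    (sowing.sub games).LeftSecond (n + 1) (p, [.mk [zero] [negNat n]]) := by
  rintro ⟨q, y⟩ (⟨hq, hy⟩ | ⟨hq, hy⟩)
  · simp only at hq hy
    subst hy
    refine ⟨(q, [negNat n]), Or.inr ⟨rfl, games_R_mk (by simp [Game.right])⟩, ?_⟩
    have := S_ls (n - 1) (by omega) q (H_R (by omega) h hq)
    rwa [Nat.sub_add_cancel (by omega)] at this
  · simp only at hq hy
    subst hq
    obtain ⟨H, hH, rfl⟩ := games_L hy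
    have hH' : H = zero := by simpa [Game.left] using hH
    subst hH'
    obtain ⟨q', hq', hA⟩ := H_L_ex h
    exact ⟨(q', [zero]), Or.inl ⟨hq', rfl⟩, ls_of_none (fun _ => A_R (Or.inl rfl) hA) rfl _⟩

theorem H_rs {n : ℕ} (hn : 2 ≤ n) {p : ℤ → ℕ} (h : Ty n (sH n) p) :
    (sowing.sub games).RightSecond (n + 2) (p, [.mk [zero] [negNat n]]) := by
  rintro ⟨q, y⟩ (⟨hq, hy⟩ | ⟨hq, hy⟩)
  · simp only at hq hy
    subst hy
    refine ⟨(q, [zero]), Or.inr ⟨rfl, games_L_mk (by simp [Game.left])⟩, ?_⟩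
    exact rs_of_none (fun _ => A_L (Or.inl rfl) (H_L h hq)) rfl _
  · simp only at hq hy
    subst hq
    obtain ⟨H, hH, rfl⟩ := games_R hy
    have hH' : H = negNat n := by simpa [Game.right] using hH
    subst hH'
    obtain ⟨q', hq', hS⟩ := H_R_ex (by omega) h
    refine ⟨(q', [negNat n]), Or.inl ⟨hq', rfl⟩, ?_⟩
    have := S_rs hn (n - 1) (by omega) q' hS
    have e1 : n - 1 + 2 = n + 1 := by omega
    have e2 : n - 1 + 1 = n := by omega
    rwa [e1, e2] at this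

theorem G_ls {n : ℕ} (hn : 2 ≤ n) {p : ℤ → ℕ} (h : Ty n (sG n) p) :
    (sowing.sub games).LeftSecond (n + 2) (p, [tiny n]) := by
  rintro ⟨q, y⟩ (⟨hq, hy⟩ | ⟨hq, hy⟩)
  · simp only at hq hy
    subst hy
    refine ⟨(q, [.mk [zero] [negNat n]]), Or.inr ⟨rfl, games_R_mk (by simp [tiny, Game.right])⟩, ?_⟩
    exact H_ls hn (G_R h hq)
  · simp only at hq hy
    subst hq
    obtain ⟨H, hH, rfl⟩ := games_L hy
    have hH' : H = zero := by simpa [tiny, Game.left] using hH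
    subst hH'
    obtain ⟨q', hq', hA⟩ := G_L_ex h
    exact ⟨(q', [zero]), Or.inl ⟨hq', rfl⟩, ls_of_none (fun _ => A_R (Or.inr rfl) hA) rfl _⟩

theorem G_rs {n : ℕ} (hn : 2 ≤ n) {p : ℤ → ℕ} (h : Ty n (sG n) p) :
    (sowing.sub games).RightSecond (n + 3) (p, [tiny n]) := by
  rintro ⟨q, y⟩ (⟨hq, hy⟩ | ⟨hq, hy⟩)
  · simp only at hq hy
    subst hy
    refine ⟨(q, [zero]), Or.inr ⟨rfl, games_L_mk (by simp [tiny, Game.left])⟩, ?_⟩
    exact rs_of_none (fun _ => A_L (Or.inr rfl) (G_L h hq)) rfl _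
  · simp only at hq hy
    subst hq
    obtain ⟨H, hH, rfl⟩ := games_R hy
    have hH' : H = .mk [zero] [negNat n] := by simpa [tiny, Game.right] using hH
    subst hH'
    obtain ⟨q', hq', hS⟩ := G_R_ex h
    exact ⟨(q', [.mk [zero] [negNat n]]), Or.inl ⟨hq', rfl⟩, H_rs hn hS⟩

theorem tinyRow_ty (n : ℕ) : Ty n (sG n) (tinyRow n) := by
  refine ⟨fun j h1 h2 => ?_, ?_, ?_⟩
  · simp only [sG, tinyRow]
    split_ifs <;> omega
  · simp only [tinyRow]
    split_ifs <;> omega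
  · simp only [tinyRow]
    split_ifs <;> omega

end Fam

theorem t_FAM : S_FAM := by
  intro n hn
  refine ⟨?_, ⟨n + 2, Fam.G_ls hn (Fam.tinyRow_ty n)⟩, ⟨n + 3, Fam.G_rs hn (Fam.tinyRow_ty n)⟩⟩
  apply (Set.finite_Icc (0 : ℤ) (2 * n + 3)).subset
  intro i hi
  simp only [Function.mem_support, tinyRow] at hi
  simp only [Set.mem_Icc]
  split_ifs at hi <;> omega

end SowingH27
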