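-- adapted from Pool/Agent/E8helper51/Sow/Nimadd.lean (helper51)
import Pool.Agent.E8helper27.Sow.Defs

/-!
# Sums of nim heaps as lists of short games
-/

set_option autoImplicit false

namespace SowingH27.NimAdd

open SowingH27

theorem nim_left (n : ℕ) : (nim n).left = nims n := Game.left_mk _ _

theorem nim_right (n : ℕ) : (nim n).right = nims n := Game.right_mk _ _

theorem mem_nims {n : ℕ} {H : Game} : H ∈ nims n ↔ ∃ j < n, H = nim j := by
  induction n with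
  | zero => simp [nims]
  | succ n ih =>
    rw [nims, List.mem_cons, ih]
    constructor
    · rintro (h | ⟨j, hj, h⟩)
      · exact ⟨n, Nat.lt_succ_self n, h⟩
      · exact ⟨j, hj.trans (Nat.lt_succ_self n), h⟩
    · rintro ⟨j, hj, h⟩
      rcases Nat.lt_succ_iff_lt_or_eq.1 hj with h1 | h1
      · exact Or.inr ⟨j, h1, h⟩
      · subst h1; exact Or.inl h

/-- a move in a list of nim heaps -/
def Mv (a a' : List ℕ) : Prop := ∃ (p : List ℕ) (t : ℕ) (q : List ℕ) (t' : ℕ),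
  a = p ++ t :: q ∧ t' < t ∧ a' = p ++ t' :: q

theorem L_of_mv {a a' : List ℕ} (h : Mv a a') : games.L (a.map nim) (a'.map nim) := by
  obtain ⟨p, t, q, t', rfl, ht, rfl⟩ := h
  refine ⟨p.map nim, nim t, q.map nim, nim t', by simp, ?_, by simp⟩
  rw [nim_left]
  exact mem_nims.2 ⟨t', ht, rfl⟩

theorem R_of_mv {a a' : List ℕ} (h : Mv a a') : games.R (a.map nim) (a'.map nim) := by
  obtain ⟨p, t, q, t', rfl, ht, rfl⟩ := h
  refine ⟨p.map nim, nim t, q.map nim, nim t', by simp, ?_, by simp⟩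
  rw [nim_right]
  exact mem_nims.2 ⟨t', ht, rfl⟩

theorem split_map {a : List ℕ} {x y : List Game} {G : Game} (h : a.map nim = x ++ G :: y) :
    ∃ (p : List ℕ) (t : ℕ) (q : List ℕ), a = p ++ t :: q ∧ x = p.map nim ∧ G = nim t ∧
      y = q.map nim := by
  obtain ⟨p, r, rfl, hp, hr⟩ := List.map_eq_append_iff.1 h
  obtain ⟨t, q, rfl, ht, hq⟩ := List.map_eq_cons_iff.1 hr
  exact ⟨p, t, q, rfl, hp.symm, ht.symm, hq.symm⟩

theorem mv_of_L {a : List ℕ} {y : List Game} (h : games.L (a.map nim) y) :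
    ∃ a', Mv a a' ∧ y = a'.map nim := by
  obtain ⟨x, G, b, H, h1, hH, rfl⟩ := h
  obtain ⟨p, t, q, rfl, rfl, rfl, rfl⟩ := split_map h1
  rw [nim_left] at hH
  obtain ⟨t', ht', rfl⟩ := mem_nims.1 hH
  exact ⟨p ++ t' :: q, ⟨p, t, q, t', rfl, ht', rfl⟩, by simp⟩

theorem mv_of_R {a : List ℕ} {y : List Game} (h : games.R (a.map nim) y) :
    ∃ a', Mv a a' ∧ y = a'.map nim := by
  obtain ⟨x, G, b, H, h1, hH, rfl⟩ := h
  obtain ⟨p, t, q, rfl, rfl, rfl, rfl⟩ := split_map h1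
  rw [nim_right] at hH
  obtain ⟨t', ht', rfl⟩ := mem_nims.1 hH
  exact ⟨p ++ t' :: q, ⟨p, t, q, t', rfl, ht', rfl⟩, by simp⟩

/-- the nim sum of a list -/
def xr : List ℕ → ℕ
  | [] => 0
  | t :: q => t ^^^ xr q

theorem xr_append (p : List ℕ) (q : List ℕ) : xr (p ++ q) = xr p ^^^ xr q := by
  induction p with
  | nil => simp [xr]
  | cons t p ih => simp only [List.cons_append, xr, ih, Nat.xor_assoc]

theorem mv_sum {a a' : List ℕ} (h : Mv a a') : a'.sum < a.sum := by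
  obtain ⟨p, t, q, t', rfl, ht, rfl⟩ := h
  simp only [List.sum_append, List.sum_cons]
  omega

theorem mv_xr {a a' : List ℕ} (h : Mv a a') : xr a' ≠ xr a := by
  obtain ⟨p, t, q, t', rfl, ht, rfl⟩ := h
  rw [xr_append, xr_append]
  intro h1
  have h2 := Nat.xor_right_injective h1
  simp only [xr] at h2
  have h3 := Nat.xor_left_injective h2
  omega

theorem exists_mv (a : List ℕ) : ∀ y : ℕ, y < xr a → ∃ a', Mv a a' ∧ xr a' = y := by
  induction a with
  | nil => intro y hy; simp [xr] at hy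
  | cons t q ih =>
    intro y hy
    rcases Nat.lt_xor_cases hy with h | h
    · refine ⟨(y ^^^ xr q) :: q, ⟨[], t, q, y ^^^ xr q, rfl, h, rfl⟩, ?_⟩
      simp only [xr]
      rw [Nat.xor_assoc, Nat.xor_self, Nat.xor_zero]
    · obtain ⟨q', ⟨p, s, r, s', rfl, hs, rfl⟩, hx⟩ := ih _ h
      refine ⟨t :: (p ++ s' :: r), ⟨t :: p, s, r, s', rfl, hs, rfl⟩, ?_⟩
      simp only [xr]
      rw [hx, Nat.xor_comm y t, ← Nat.xor_assoc, Nat.xor_self, Nat.zero_xor]

/-- the reply in an unbalanced pair of lists -/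
theorem reply {a b : List ℕ} (h : xr a ≠ xr b) :
    (∃ a', Mv a a' ∧ xr a' = xr b) ∨ (∃ b', Mv b b' ∧ xr a = xr b') := by
  rcases lt_or_gt_of_ne h with h1 | h1
  · obtain ⟨b', hb, hx⟩ := exists_mv b _ h1
    exact Or.inr ⟨b', hb, hx.symm⟩
  · obtain ⟨a', ha, hx⟩ := exists_mv a _ h1
    exact Or.inl ⟨a', ha, hx⟩

theorem left_second (n : ℕ) : ∀ a b : List ℕ, xr a = xr b → a.sum + b.sum ≤ n →
    (games.sub games).LeftSecond n (a.map nim, b.map nim) := by
  induction n with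
  | zero =>
    intro a b _ hs y hy
    rcases hy with ⟨h1, _⟩ | ⟨_, h1⟩
    · obtain ⟨a', h2, _⟩ := mv_of_R h1
      have := mv_sum h2
      omega
    · obtain ⟨b', h2, _⟩ := mv_of_L h1
      have := mv_sum h2
      omega
  | succ n ih =>
    intro a b hx hs y hy
    obtain ⟨y1, y2⟩ := y
    -- the new pair of lists
    have key : ∃ a1 b1 : List ℕ, y1 = a1.map nim ∧ y2 = b1.map nim ∧ xr a1 ≠ xr b1 ∧
        a1.sum + b1.sum ≤ n := by
      rcases hy with ⟨h1, h3⟩ | ⟨h3, h1⟩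
      · obtain ⟨a', h2, h4⟩ := mv_of_R h1
        have h5 := mv_sum h2
        refine ⟨a', b, h4, h3, ?_, by omega⟩
        rw [← hx]; exact mv_xr h2
      · obtain ⟨b', h2, h4⟩ := mv_of_L h1
        have h5 := mv_sum h2
        refine ⟨a, b', h3, h4, ?_, by omega⟩
        rw [hx]; exact (mv_xr h2).symm
    obtain ⟨a1, b1, rfl, rfl, hne, hs1⟩ := key
    rcases reply hne with ⟨a2, h2, h3⟩ | ⟨b2, h2, h3⟩
    · have h5 := mv_sum h2
      exact ⟨(a2.map nim, b1.map nim), Or.inl ⟨L_of_mv h2, rfl⟩, ih a2 b1 h3 (by omega)⟩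
    · have h5 := mv_sum h2
      exact ⟨(a1.map nim, b2.map nim), Or.inr ⟨rfl, R_of_mv h2⟩, ih a1 b2 h3 (by omega)⟩

theorem right_second (n : ℕ) : ∀ a b : List ℕ, xr a = xr b → a.sum + b.sum ≤ n →
    (games.sub games).RightSecond n (a.map nim, b.map nim) := by
  induction n with
  | zero =>
    intro a b _ hs y hy
    rcases hy with ⟨h1, _⟩ | ⟨_, h1⟩
    · obtain ⟨a', h2, _⟩ := mv_of_L h1
      have := mv_sum h2
      omega
    · obtain ⟨b', h2, _⟩ := mv_of_R h1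
      have := mv_sum h2
      omega
  | succ n ih =>
    intro a b hx hs y hy
    obtain ⟨y1, y2⟩ := y
    have key : ∃ a1 b1 : List ℕ, y1 = a1.map nim ∧ y2 = b1.map nim ∧ xr a1 ≠ xr b1 ∧
        a1.sum + b1.sum ≤ n := by
      rcases hy with ⟨h1, h3⟩ | ⟨h3, h1⟩
      · obtain ⟨a', h2, h4⟩ := mv_of_L h1
        have h5 := mv_sum h2
        refine ⟨a', b, h4, h3, ?_, by omega⟩
        rw [← hx]; exact mv_xr h2
      · obtain ⟨b', h2, h4⟩ := mv_of_R h1
        have h5 := mv_sum h2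
        refine ⟨a, b', h3, h4, ?_, by omega⟩
        rw [hx]; exact (mv_xr h2).symm
    obtain ⟨a1, b1, rfl, rfl, hne, hs1⟩ := key
    rcases reply hne with ⟨a2, h2, h3⟩ | ⟨b2, h2, h3⟩
    · have h5 := mv_sum h2
      exact ⟨(a2.map nim, b1.map nim), Or.inl ⟨R_of_mv h2, rfl⟩, ih a2 b1 h3 (by omega)⟩
    · have h5 := mv_sum h2
      exact ⟨(a1.map nim, b2.map nim), Or.inr ⟨rfl, L_of_mv h2⟩, ih a1 b2 h3 (by omega)⟩

/-- lists of nim heaps of the same nim sum have equal values -/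
theorem equal_of_xr (a b : List ℕ) (h : xr a = xr b) :
    Equal games (a.map nim) games (b.map nim) :=
  ⟨⟨_, left_second _ a b h le_rfl⟩, ⟨_, right_second _ a b h le_rfl⟩⟩

theorem t_NIMADD : S_NIMADD :=
  ⟨equal_of_xr [2, 1] [3] (by decide), equal_of_xr [4, 1] [5] (by decide),
    equal_of_xr [4, 2] [6] (by decide), equal_of_xr [4, 3] [7] (by decide)⟩

end SowingH27.NimAdd
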