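import Pool.Agent.E8helper27.Sow.Fam
import Pool.Agent.E8helper67.Sow.Sum
import Pool.Agent.E8helper13.SW.Trans
import Pool.Agent.E8helper38.Sow.Small
import Pool.Agent.E8helper27.Sow.NimAdd
import Pool.Agent.E8helper27.Sow.NimFour

namespace SowingH27

theorem up_all (n : ℕ) (hn : 1 ≤ n) : ∃ p, HasValue p (List.replicate n up) := by
  induction n, hn using Nat.le_induction with
  | base => exact ⟨_, Pool.Agent.E8helper38.Sow.t_UP⟩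
  | succ n hn ih =>
    obtain ⟨q, hq⟩ := ih
    obtain ⟨r, hr⟩ := Pool.Agent.E8helper67.Sow.t_SUM _ q [up] _ Pool.Agent.E8helper38.Sow.t_UP hq
    exact ⟨r, by simpa [List.replicate_succ] using hr⟩

theorem tiny_all (n : ℕ) (hn : 1 ≤ n) : ∃ p, HasValue p [tiny n] := by
  rcases Nat.lt_or_ge n 2 with h | h
  · obtain rfl : n = 1 := by omega
    exact ⟨_, Pool.Agent.E8helper38.Sow.t_TINY1⟩
  · exact ⟨_, t_FAM n h⟩

theorem nim_small (h4 : S_NIM4) (n : ℕ) (hn : 1 ≤ n) (hn7 : n ≤ 7) : ∃ p, HasValue p [nim n] := by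
  have h1 := Pool.Agent.E8helper38.Sow.t_NIM1
  have h2 := Pool.Agent.E8helper38.Sow.t_NIM2
  obtain ⟨a3, a5, a6, a7⟩ := SowingH27.NimAdd.t_NIMADD
  have sum := @Pool.Agent.E8helper67.Sow.t_SUM
  have tr := @Pool.Agent.E8helper13.SW.t_TRANS
  have h3 : ∃ p, HasValue p [nim 3] := by
    obtain ⟨r, hr⟩ := sum _ _ _ _ h2 h1
    exact ⟨r, tr _ _ _ hr a3⟩
  obtain ⟨p3, h3⟩ := h3
  interval_cases n
  · exact ⟨_, h1⟩
  · exact ⟨_, h2⟩
  · exact ⟨_, h3⟩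
  · exact ⟨_, h4⟩
  · obtain ⟨r, hr⟩ := sum _ _ _ _ h4 h1
    exact ⟨r, tr _ _ _ hr a5⟩
  · obtain ⟨r, hr⟩ := sum _ _ _ _ h4 h2
    exact ⟨r, tr _ _ _ hr a6⟩
  · obtain ⟨r, hr⟩ := sum _ _ _ _ h4 h3
    exact ⟨r, tr _ _ _ hr a7⟩

end SowingH27
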